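import Pool.Agent.Helper40_Dio.FStmt

/-! DIO part F, module MCE: the even type modulo `c`. -/

set_option autoImplicit false

namespace Pool.Agent.DIO.H7

theorem sqg_even (a c s z0 x0 : ℤ) (hs : s * s = a * c + 1) (μ : ℕ) : ∃ K1 K2 : ℤ,
    (sqg a c s z0 x0 (2 * μ)).1 = z0 + 2 * c * (a * z0 * (μ : ℤ) ^ 2 + s * x0 * μ) + c ^ 2 * K1 ∧
    (sqg a c s z0 x0 (2 * μ)).2 = x0 + 2 * a * s * z0 * μ + c * K2 := by
  induction μ with
  | zero => exact ⟨0, 0, by simp [sqg], by simp [sqg]⟩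
  | succ μ ih =>
    obtain ⟨K1, K2, h1, h2⟩ := ih
    refine ⟨K1 + 4 * a * (a * z0 * (μ : ℤ) ^ 2 + s * x0 * μ) + 2 * a * c * K1 + 2 * s * K2 +
      4 * a ^ 2 * z0 * μ, K2 + 2 * a * (x0 + 2 * a * s * z0 * μ + c * K2) +
      2 * a * s * (2 * (a * z0 * (μ : ℤ) ^ 2 + s * x0 * μ) + c * K1), ?_, ?_⟩
    · rw [show 2 * (μ + 1) = 2 * μ + 1 + 1 by ring]
      simp only [sqg]
      rw [h1, h2]
      push_cast
      linear_combination (z0 + 2 * c * (a * z0 * (μ : ℤ) ^ 2 + s * x0 * μ) + c ^ 2 * K1 +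
        4 * a * c * z0 * μ) * hs
    · rw [show 2 * (μ + 1) = 2 * μ + 1 + 1 by ring]
      simp only [sqg]
      rw [h1, h2]
      push_cast
      linear_combination (x0 + 2 * a * s * z0 * μ + c * K2) * hs

theorem mce : MceStatement := by
  intro a b c s t x y z f W F1 F2 ε e1 e2 μ ν hs ht hT he1 he2
  obtain ⟨-, hW, -, -, hfc, -, -, hz1, hz2⟩ := hT
  have hs' : (s : ℤ) * s = a * c + 1 := by exact_mod_cast hs
  have ht' : (t : ℤ) * t = b * c + 1 := by exact_mod_cast ht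
  have hW' : (W : ℤ) * W = c * f + 1 := by exact_mod_cast hW
  obtain ⟨K1, K2, h1, -⟩ := sqg_even a c s (ε * W) F1 hs' μ
  obtain ⟨L1, L2, h2, -⟩ := sqg_even b c t (ε * W) F2 ht' ν
  rw [hz1] at h1
  rw [hz2] at h2
  have hc0 : (c : ℤ) ≠ 0 := by
    have : 0 < c := by omega
    exact_mod_cast this.ne'
  have h3 : (c : ℤ) * (2 * (ε * W * (a * (μ : ℤ) ^ 2 - b * (ν : ℤ) ^ 2) + s * F1 * μ - t * F2 * ν)) =
      c * (c * (L1 - K1)) := by
    simp only at h1 h2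
    linear_combination h2 - h1
  have h4 := mul_left_cancel₀ hc0 h3
  refine ⟨W * (L1 - K1) - 2 * ε * f * (a * (μ : ℤ) ^ 2 - b * (ν : ℤ) ^ 2) - μ * (1 + 2 * a * f) +
    ν * (1 + 2 * b * f), ?_⟩
  rw [he1, he2]
  linear_combination W * h4 - 2 * ε * (a * (μ : ℤ) ^ 2 - b * (ν : ℤ) ^ 2) * hW'

end Pool.Agent.DIO.H7
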