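import Pool.Agent.Helper40_Dio.FStmt

/-! DIO part F, module SGE: sizes, even type. -/

set_option autoImplicit false

namespace Pool.Agent.DIO.H7

theorem dstep1 (a c s z0 x0 : ℤ) (hs : s * s = a * c + 1) (n : ℕ) :
    (sqg a c s z0 x0 (2 * (n + 1))).1 = (2 * a * c + 1) * (sqg a c s z0 x0 (2 * n)).1 +
      2 * c * s * (sqg a c s z0 x0 (2 * n)).2 := by
  rw [show 2 * (n + 1) = 2 * n + 1 + 1 by ring]
  simp only [sqg]
  linear_combination (sqg a c s z0 x0 (2 * n)).1 * hs

theorem dstep2 (a c s z0 x0 : ℤ) (hs : s * s = a * c + 1) (n : ℕ) :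
    (sqg a c s z0 x0 (2 * (n + 1))).2 = (2 * a * c + 1) * (sqg a c s z0 x0 (2 * n)).2 +
      2 * a * s * (sqg a c s z0 x0 (2 * n)).1 := by
  rw [show 2 * (n + 1) = 2 * n + 1 + 1 by ring]
  simp only [sqg]
  linear_combination (sqg a c s z0 x0 (2 * n)).2 * hs

theorem sqg_inv (a c s z0 x0 : ℤ) (hs : s * s = a * c + 1) (h0 : a * z0 ^ 2 - c * x0 ^ 2 = a - c)
    (m : ℕ) : a * (sqg a c s z0 x0 m).1 ^ 2 - c * (sqg a c s z0 x0 m).2 ^ 2 = a - c := by
  induction m with
  | zero => simpa [sqg] using h0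
  | succ m ih =>
    simp only [sqg]
    linear_combination ih + (a * (sqg a c s z0 x0 m).1 ^ 2 - c * (sqg a c s z0 x0 m).2 ^ 2) * hs

/-- `s X ≥ a V`. -/
theorem sx_ge (a c s V X : ℤ) (ha : 0 < a) (hac : a < c) (hs : s * s = a * c + 1) (hs0 : 0 < s)
    (hi : a * V ^ 2 - c * X ^ 2 = a - c) (hX : 0 < X) : a * V ≤ s * X := by
  by_contra hc
  push Not at hc
  have h1 : 0 < s * X := mul_pos hs0 hX
  have h2 : (s * X) ^ 2 < (a * V) ^ 2 := by nlinarith
  have hc0 : 0 < c := ha.trans hac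
  have h3 : c * (s * X) ^ 2 < c * (a * V) ^ 2 := mul_lt_mul_of_pos_left h2 hc0
  have h4 : c * (s * X) ^ 2 = (a * c + 1) * (a * V ^ 2 + c - a) := by
    have : c * (s * X) ^ 2 = (s * s) * (c * X ^ 2) := by ring
    rw [this, hs]
    have h5 : c * X ^ 2 = a * V ^ 2 + c - a := by linarith
    rw [h5]
  have h6 : 0 ≤ V ^ 2 := sq_nonneg V
  nlinarith [mul_pos ha hc0]

theorem core (a b c s t : ℤ) (ha : 0 < a) (hab : a < b) (hbc : b < c)
    (hs : s * s = a * c + 1) (ht : t * t = b * c + 1) (hs0 : 0 < s) (ht0 : 0 < t)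
    (V X U Y : ℕ → ℤ)
    (hV : ∀ n, V (n + 1) = (2 * a * c + 1) * V n + 2 * c * s * X n)
    (hX : ∀ n, X (n + 1) = (2 * a * c + 1) * X n + 2 * a * s * V n)
    (hU : ∀ n, U (n + 1) = (2 * b * c + 1) * U n + 2 * c * t * Y n)
    (hY : ∀ n, Y (n + 1) = (2 * b * c + 1) * Y n + 2 * b * t * U n)
    (iV : ∀ n, a * V n ^ 2 - c * X n ^ 2 = a - c) (iU : ∀ n, b * U n ^ 2 - c * Y n ^ 2 = b - c)
    (n0 : ℕ) (hV0 : 0 < V n0) (hX0 : 0 < X n0) (hU0 : 0 < U n0) (hY0 : 0 < Y n0)
    (hup : a ^ n0 * U n0 ≤ b ^ n0 * V n0) (n1 : ℕ) (h01 : n0 ≤ n1) (hlow : V n1 < U n1)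
    (μ ν : ℕ) (hμ : n0 ≤ μ) (hν : n0 ≤ ν) (hν1 : 1 ≤ ν) (heq : V μ = U ν) :
    μ < 2 * ν ∧ (n1 ≤ ν → ν < μ) ∧ (ν ≤ μ → (4 * a * c) ^ (μ - ν) * a ^ ν ≤ b ^ ν) := by
  have hb : 0 < b := ha.trans hab
  have hc : 0 < c := hb.trans hbc
  have hac : 0 < a * c := mul_pos ha hc
  have hbc' : 0 < b * c := mul_pos hb hc
  have hst : s ≤ t := by
    by_contra h
    push Not at h
    nlinarith
  -- positivity
  have pos : ∀ k, 0 < V (n0 + k) ∧ 0 < X (n0 + k) ∧ 0 < U (n0 + k) ∧ 0 < Y (n0 + k) := by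
    intro k
    induction k with
    | zero => exact ⟨hV0, hX0, hU0, hY0⟩
    | succ k ih =>
      obtain ⟨h1, h2, h3, h4⟩ := ih
      rw [← add_assoc, hV, hX, hU, hY]
      refine ⟨?_, ?_, ?_, ?_⟩ <;> positivity
  have posn : ∀ n, n0 ≤ n → 0 < V n ∧ 0 < X n ∧ 0 < U n ∧ 0 < Y n := by
    intro n hn
    obtain ⟨k, rfl⟩ := Nat.exists_eq_add_of_le hn
    exact pos k
  -- growth
  have grow1 : ∀ n, n0 ≤ n → (4 * a * c + 1) * V n ≤ V (n + 1) := by
    intro n hn
    obtain ⟨h1, h2, -, -⟩ := posn n hn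
    have h3 := sx_ge a c s (V n) (X n) ha (hab.trans hbc) hs hs0 (iV n) h2
    rw [hV]
    nlinarith [mul_le_mul_of_nonneg_left h3 hc.le]
  have grow : ∀ n, n0 ≤ n → ∀ k, (4 * a * c + 1) ^ k * V n ≤ V (n + k) := by
    intro n hn k
    induction k with
    | zero => simp
    | succ k ih =>
      have h1 := grow1 (n + k) (le_trans hn (Nat.le_add_right _ _))
      rw [← add_assoc]
      calc (4 * a * c + 1) ^ (k + 1) * V n = (4 * a * c + 1) * ((4 * a * c + 1) ^ k * V n) := by ring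
        _ ≤ (4 * a * c + 1) * V (n + k) :=
            mul_le_mul_of_nonneg_left ih (by nlinarith)
        _ ≤ V (n + k + 1) := h1
  have mono : ∀ n m, n0 ≤ n → n ≤ m → V n ≤ V m := by
    intro n m hn hm
    obtain ⟨k, rfl⟩ := Nat.exists_eq_add_of_le hm
    have h1 := grow n hn k
    have h2 : (1 : ℤ) ≤ (4 * a * c + 1) ^ k := one_le_pow₀ (by nlinarith)
    have h3 := (posn n hn).1
    nlinarith
  -- upper comparison
  have upk : ∀ k, a ^ (n0 + k) * U (n0 + k) ≤ b ^ (n0 + k) * V (n0 + k) := by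
    intro k
    induction k with
    | zero => exact hup
    | succ k ih =>
      obtain ⟨p1, p2, p3, p4⟩ := pos k
      set n := n0 + k with hn
      rw [← add_assoc, ← hn, hU, hV]
      have hA : 0 < a ^ n := pow_pos ha n
      have hB : 0 < b ^ n := pow_pos hb n
      have hAB : a ^ n ≤ b ^ n := pow_le_pow_left₀ ha.le hab.le n
      have e1 : a ^ (n + 1) * ((2 * b * c + 1) * U n) ≤ b ^ (n + 1) * ((2 * a * c + 1) * V n) := by
        have h1 : a * (2 * b * c + 1) * (a ^ n * U n) ≤ a * (2 * b * c + 1) * (b ^ n * V n) :=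
          mul_le_mul_of_nonneg_left ih (by positivity)
        have h2 : a * (2 * b * c + 1) * (b ^ n * V n) ≤ b * (2 * a * c + 1) * (b ^ n * V n) :=
          mul_le_mul_of_nonneg_right (by nlinarith) (by positivity)
        calc a ^ (n + 1) * ((2 * b * c + 1) * U n) = a * (2 * b * c + 1) * (a ^ n * U n) := by ring
          _ ≤ b * (2 * a * c + 1) * (b ^ n * V n) := h1.trans h2
          _ = b ^ (n + 1) * ((2 * a * c + 1) * V n) := by ring
      have hat : a * (t * t) ≤ b * (s * s) := by rw [hs, ht]; nlinarith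
      have e2 : a ^ (n + 1) * (t * Y n) ≤ b ^ (n + 1) * (s * X n) := by
        have g1 : 0 ≤ b ^ (n + 1) * (s * X n) := by positivity
        have g2 : (a ^ (n + 1) * (t * Y n)) ^ 2 ≤ (b ^ (n + 1) * (s * X n)) ^ 2 := by
          have g3 : c * (a ^ (n + 1) * (t * Y n)) ^ 2 ≤ c * (b ^ (n + 1) * (s * X n)) ^ 2 := by
            have g4 : c * (a ^ (n + 1) * (t * Y n)) ^ 2 =
                (a ^ n) ^ 2 * a * (a * (t * t)) * (b * U n ^ 2 + (c - b)) := by
              have : c * Y n ^ 2 = b * U n ^ 2 + (c - b) := by linarith [iU n]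
              rw [← this]; ring
            have g5 : c * (b ^ (n + 1) * (s * X n)) ^ 2 =
                (b ^ n) ^ 2 * b * (b * (s * s)) * (a * V n ^ 2 + (c - a)) := by
              have : c * X n ^ 2 = a * V n ^ 2 + (c - a) := by linarith [iV n]
              rw [← this]; ring
            rw [g4, g5]
            have g6 : (a ^ n) ^ 2 * a * (a * (t * t)) * (b * U n ^ 2) ≤
                (b ^ n) ^ 2 * b * (b * (s * s)) * (a * V n ^ 2) := by
              have i1 : (a ^ n * U n) ^ 2 ≤ (b ^ n * V n) ^ 2 :=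
                pow_le_pow_left₀ (by positivity) ih 2
              calc (a ^ n) ^ 2 * a * (a * (t * t)) * (b * U n ^ 2)
                  = (a * b) * ((a * (t * t)) * (a ^ n * U n) ^ 2) := by ring
                _ ≤ (a * b) * ((b * (s * s)) * (b ^ n * V n) ^ 2) :=
                    mul_le_mul_of_nonneg_left
                      (mul_le_mul hat i1 (by positivity) (by positivity)) (by positivity)
                _ = (b ^ n) ^ 2 * b * (b * (s * s)) * (a * V n ^ 2) := by ring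
            have g7 : (a ^ n) ^ 2 * a * (a * (t * t)) * (c - b) ≤
                (b ^ n) ^ 2 * b * (b * (s * s)) * (c - a) := by
              have i2 : (a ^ n) ^ 2 * a ≤ (b ^ n) ^ 2 * b :=
                mul_le_mul (pow_le_pow_left₀ hA.le hAB 2) hab.le ha.le (by positivity)
              have i3 : (a ^ n) ^ 2 * a * (a * (t * t)) ≤ (b ^ n) ^ 2 * b * (b * (s * s)) :=
                mul_le_mul i2 hat (by positivity) (by positivity)
              exact mul_le_mul i3 (by linarith) (by linarith) (by positivity)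
            calc (a ^ n) ^ 2 * a * (a * (t * t)) * (b * U n ^ 2 + (c - b))
                = (a ^ n) ^ 2 * a * (a * (t * t)) * (b * U n ^ 2) +
                  (a ^ n) ^ 2 * a * (a * (t * t)) * (c - b) := by ring
              _ ≤ (b ^ n) ^ 2 * b * (b * (s * s)) * (a * V n ^ 2) +
                  (b ^ n) ^ 2 * b * (b * (s * s)) * (c - a) := add_le_add g6 g7
              _ = (b ^ n) ^ 2 * b * (b * (s * s)) * (a * V n ^ 2 + (c - a)) := by ring
          exact le_of_mul_le_mul_left g3 hc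
        exact (pow_le_pow_iff_left₀ (by positivity) g1 two_ne_zero).1 g2
      calc a ^ (n + 1) * ((2 * b * c + 1) * U n + 2 * c * t * Y n)
          = a ^ (n + 1) * ((2 * b * c + 1) * U n) + 2 * c * (a ^ (n + 1) * (t * Y n)) := by ring
        _ ≤ b ^ (n + 1) * ((2 * a * c + 1) * V n) + 2 * c * (b ^ (n + 1) * (s * X n)) :=
            add_le_add e1 (mul_le_mul_of_nonneg_left e2 (by positivity))
        _ = b ^ (n + 1) * ((2 * a * c + 1) * V n + 2 * c * s * X n) := by ring
  have up : ∀ n, n0 ≤ n → a ^ n * U n ≤ b ^ n * V n := by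
    intro n hn
    obtain ⟨k, rfl⟩ := Nat.exists_eq_add_of_le hn
    exact upk k
  -- lower comparison
  have low : ∀ k, V (n1 + k) < U (n1 + k) := by
    intro k
    induction k with
    | zero => exact hlow
    | succ k ih =>
      obtain ⟨p1, p2, p3, p4⟩ := posn (n1 + k) (le_trans h01 (Nat.le_add_right _ _))
      have hXY : X (n1 + k) ≤ Y (n1 + k) := by
        refine (pow_le_pow_iff_left₀ p2.le p4.le two_ne_zero).1 ?_
        have h1 := iV (n1 + k)
        have h2 := iU (n1 + k)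
        have h3 : V (n1 + k) ^ 2 ≤ U (n1 + k) ^ 2 := pow_le_pow_left₀ p1.le ih.le 2
        have h4 : 1 ≤ V (n1 + k) ^ 2 := one_le_pow₀ p1
        have h5 : c * X (n1 + k) ^ 2 ≤ c * Y (n1 + k) ^ 2 := by nlinarith
        exact le_of_mul_le_mul_left h5 hc
      rw [← add_assoc, hV, hU]
      have h6 : s * X (n1 + k) ≤ t * Y (n1 + k) := mul_le_mul hst hXY p2.le ht0.le
      have h7 : (2 * a * c + 1) * V (n1 + k) < (2 * b * c + 1) * U (n1 + k) := by
        have : (2 * a * c + 1) < 2 * b * c + 1 := by nlinarith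
        exact mul_lt_mul'' this ih (by positivity) p1.le
      nlinarith [mul_le_mul_of_nonneg_left h6 hc.le]
  have hVν := (posn ν hν).1
  have hUν := up ν hν
  have haν : 0 < a ^ ν := pow_pos ha ν
  refine ⟨?_, ?_, ?_⟩
  · by_contra hcon
    push Not at hcon
    have h1 : V (ν + ν) ≤ V μ := mono _ _ (le_trans hν (Nat.le_add_right _ _)) (by omega)
    have h2 := grow ν hν ν
    have h3 : b ^ ν < (a * (4 * a * c + 1)) ^ ν :=
      pow_lt_pow_left₀ (by nlinarith) hb.le (by omega)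
    rw [mul_pow] at h3
    have h4 : b ^ ν * V ν < a ^ ν * (4 * a * c + 1) ^ ν * V ν :=
      mul_lt_mul_of_pos_right h3 hVν
    have h5 : a ^ ν * ((4 * a * c + 1) ^ ν * V ν) ≤ a ^ ν * V μ :=
      mul_le_mul_of_nonneg_left (h2.trans h1) haν.le
    rw [heq] at h5
    nlinarith
  · intro hn
    by_contra hcon
    push Not at hcon
    obtain ⟨k, rfl⟩ := Nat.exists_eq_add_of_le hn
    have h1 := low k
    have h2 := mono μ (n1 + k) hμ hcon
    rw [heq] at h2
    exact absurd (lt_of_lt_of_le h1 h2) (lt_irrefl _)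
  · intro hle
    obtain ⟨k, rfl⟩ := Nat.exists_eq_add_of_le hle
    rw [Nat.add_sub_cancel_left]
    have h1 := grow ν hν k
    have h2 : (4 * a * c) ^ k ≤ (4 * a * c + 1) ^ k :=
      pow_le_pow_left₀ (by positivity) (by linarith) k
    rw [heq] at h1
    have h3 : ((4 * a * c) ^ k * a ^ ν) * V ν ≤ b ^ ν * V ν := by
      calc ((4 * a * c) ^ k * a ^ ν) * V ν = a ^ ν * ((4 * a * c) ^ k * V ν) := by ring
        _ ≤ a ^ ν * ((4 * a * c + 1) ^ k * V ν) :=
            mul_le_mul_of_nonneg_left (mul_le_mul_of_nonneg_right h2 hVν.le) haν.le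
        _ ≤ a ^ ν * U ν := mul_le_mul_of_nonneg_left h1 haν.le
        _ ≤ b ^ ν * V ν := hUν
    exact le_of_mul_le_mul_right h3 hVν

theorem base1 (a c s f W F : ℤ) (ha : 0 < a) (hac : a < c) (hs0 : 0 < s) (hf : 0 < f)
    (hfc : 4 * f < c) (hW0 : 0 < W) (hF0 : 0 < F) (hs : s * s = a * c + 1)
    (hW : W * W = c * f + 1) (hF : F * F = a * f + 1) :
    0 < s * F - a * W ∧ (s * F - a * W) * (s * F + a * W) = a * (c + f - a) + 1 ∧ 2 * W ≤ c ∧
      0 < -((2 * a * c + 1) * W) + 2 * c * s * F ∧ 0 < (2 * a * c + 1) * F - 2 * a * s * W ∧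
      2 * (s * F) ≤ a * c + 2 := by
  have hc0 : 0 < c := ha.trans hac
  have e1 : (s * F - a * W) * (s * F + a * W) = a * (c + f - a) + 1 := by
    linear_combination (F * F) * hs + (a * c + 1) * hF - a ^ 2 * hW
  have hP : 0 < s * F + a * W := by positivity
  have h1 : 0 < s * F - a * W := by
    by_contra h
    push Not at h
    have h2 : (s * F - a * W) * (s * F + a * W) ≤ 0 := mul_nonpos_of_nonpos_of_nonneg h hP.le
    have h3 : 0 < a * (c + f - a) + 1 := by nlinarith
    rw [e1] at h2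
    exact absurd h3 (not_lt.2 h2)
  have h2 : 2 * W ≤ c := by
    by_contra h
    push Not at h
    nlinarith
  have h3 : 0 < -((2 * a * c + 1) * W) + 2 * c * s * F := by nlinarith
  have h4 : 0 < (2 * a * c + 1) * F - 2 * a * s * W := by
    have h5 : s * ((2 * a * c + 1) * F - 2 * a * s * W) =
        (2 * a * c + 1) * (s * F - a * W) - a * W := by
      linear_combination (-2 * a * W) * hs
    have h6 : 0 < s * ((2 * a * c + 1) * F - 2 * a * s * W) := by
      rw [h5]
      nlinarith [mul_pos ha hc0, mul_le_mul_of_nonneg_left h2 ha.le]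
    exact (mul_pos_iff_of_pos_left hs0).1 h6
  have h5 : 2 * (s * F) ≤ a * c + 2 := by
    by_contra h
    push Not at h
    have h6 : (a * c + 2) ^ 2 < (2 * (s * F)) ^ 2 :=
      pow_lt_pow_left₀ h (by positivity) two_ne_zero
    have h7 : (2 * (s * F)) ^ 2 = (a * c + 1) * (4 * (a * f) + 4) := by
      linear_combination 4 * (F * F) * hs + 4 * (a * c + 1) * hF
    rw [h7] at h6
    have h8 : 4 * (a * f) ≤ a * c - a := by nlinarith
    nlinarith [mul_pos ha hc0]
  exact ⟨h1, e1, h2, h3, h4, h5⟩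

theorem base2 (a b c s t f W F G : ℤ) (ha : 0 < a) (hab : a < b) (hbc : 12 * b < c)
    (hs0 : 0 < s) (ht0 : 0 < t) (hf : 0 < f) (hfc : 4 * f < c) (hW0 : 0 < W) (hF0 : 0 < F)
    (hG0 : 0 < G) (hs : s * s = a * c + 1) (ht : t * t = b * c + 1)
    (hW : W * W = c * f + 1) (hF : F * F = a * f + 1) (hG : G * G = b * f + 1) :
    a * (-((2 * b * c + 1) * W) + 2 * c * t * G) ≤
      b * (-((2 * a * c + 1) * W) + 2 * c * s * F) ∧
    a * (t * G) ≤ b * (s * F) := by
  have hb : 0 < b := ha.trans hab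
  have hc0 : 0 < c := by linarith
  have e1 : (b * (s * F) - a * (t * G)) * (b * (s * F) + a * (t * G)) =
      (b - a) * (a * b * (c + f) + a + b) := by
    linear_combination b ^ 2 * (F * F) * hs + b ^ 2 * (a * c + 1) * hF -
      a ^ 2 * (G * G) * ht - a ^ 2 * (b * c + 1) * hG
  have hS : 0 < b * (s * F) + a * (t * G) := by positivity
  have hR : 0 < (b - a) * (a * b * (c + f) + a + b) := by
    have : 0 < b - a := by linarith
    positivity
  have h1 : 0 < b * (s * F) - a * (t * G) := by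
    by_contra h
    push Not at h
    have h2 := mul_nonpos_of_nonpos_of_nonneg h hS.le
    rw [e1] at h2
    exact absurd hR (not_lt.2 h2)
  refine ⟨?_, by linarith⟩
  -- `W * (b - a) ≤ 2 c (b s F - a t G)`
  have hsF : s * F ≤ a * (c + f) := by
    by_contra h
    push Not at h
    have h6 : (a * (c + f)) ^ 2 < (s * F) ^ 2 :=
      pow_lt_pow_left₀ h (by positivity) two_ne_zero
    have h7 : (s * F) ^ 2 = (a * c + 1) * (a * f + 1) := by
      linear_combination (F * F) * hs + (a * c + 1) * hF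
    rw [h7] at h6
    nlinarith [mul_pos ha hc0, mul_pos hf hc0, mul_pos ha hf,
      mul_pos (mul_pos ha ha) (mul_pos hc0 hf), mul_pos ha ha,
      mul_pos (mul_pos ha ha) hc0, mul_pos (mul_pos ha ha) hf]
  have hWc : W ≤ c := by
    by_contra h
    push Not at h
    nlinarith
  have h2 : W * (b * (s * F) + a * (t * G)) ≤ 2 * c * (a * b * (c + f) + a + b) := by
    calc W * (b * (s * F) + a * (t * G)) ≤ W * (2 * (b * (s * F))) :=
          mul_le_mul_of_nonneg_left (by linarith) hW0.le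
      _ = (2 * b) * (W * (s * F)) := by ring
      _ ≤ (2 * b) * (c * (a * (c + f))) :=
          mul_le_mul_of_nonneg_left (mul_le_mul hWc hsF (by positivity) hc0.le) (by positivity)
      _ ≤ 2 * c * (a * b * (c + f) + a + b) := by nlinarith
  have h3 : W * (b - a) ≤ 2 * c * (b * (s * F) - a * (t * G)) := by
    have h4 : (W * (b - a)) * (b * (s * F) + a * (t * G)) ≤
        (2 * c * (b * (s * F) - a * (t * G))) * (b * (s * F) + a * (t * G)) := by
      calc (W * (b - a)) * (b * (s * F) + a * (t * G))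
          = (b - a) * (W * (b * (s * F) + a * (t * G))) := by ring
        _ ≤ (b - a) * (2 * c * (a * b * (c + f) + a + b)) :=
            mul_le_mul_of_nonneg_left h2 (by linarith)
        _ = 2 * c * ((b - a) * (a * b * (c + f) + a + b)) := by ring
        _ = (2 * c * (b * (s * F) - a * (t * G))) * (b * (s * F) + a * (t * G)) := by
            rw [← e1]; ring
    exact le_of_mul_le_mul_right h4 hS
  nlinarith

theorem base3 (a b c s t f W F G : ℤ) (ha : 0 < a) (hab : a < b) (hbc : 12 * b < c)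
    (hs0 : 0 < s) (ht0 : 0 < t) (hf : 0 < f) (hfc : 4 * f < c) (hW0 : 0 < W) (hF0 : 0 < F)
    (hG0 : 0 < G) (hs : s * s = a * c + 1) (ht : t * t = b * c + 1)
    (hW : W * W = c * f + 1) (hF : F * F = a * f + 1) (hG : G * G = b * f + 1) :
    (b - a) * W < (2 * b * c + 1) * (t * G - b * W) - (2 * a * c + 1) * (s * F - a * W) := by
  have hb : 0 < b := ha.trans hab
  have hc0 : 0 < c := by linarith
  obtain ⟨hp, hpP, hWc, -, -, hsF⟩ := base1 a c s f W F ha (by linarith) hs0 hf hfc hW0 hF0 hs hW hF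
  obtain ⟨hq, hqQ, -, -, -, -⟩ := base1 b c t f W G hb (by linarith) ht0 hf hfc hW0 hG0 ht hW hG
  obtain ⟨-, hle⟩ := base2 a b c s t f W F G ha hab hbc hs0 ht0 hf hfc hW0 hF0 hG0 hs ht hW hF hG
  set p := s * F - a * W with hpdef
  set q := t * G - b * W with hqdef
  set P := s * F + a * W with hP
  set Q := t * G + b * W with hQ
  have hP0 : 0 < P := by positivity
  have hQ0 : 0 < Q := by positivity
  have hQP : a * Q ≤ b * P := by rw [hP, hQ]; nlinarith
  -- the decisive inequality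
  have hPb : P ≤ a * c + 1 := by
    rw [hP]; nlinarith [mul_le_mul_of_nonneg_left hWc ha.le]
  have hWP : 2 * (W * P) ≤ c * (a * c + 1) := by
    calc 2 * (W * P) = (2 * W) * P := by ring
      _ ≤ c * (a * c + 1) := mul_le_mul hWc hPb hP0.le hc0.le
  have key : 0 < 2 * a * b * c * (c + f - a - b) - a * b - 1 - b * (W * P) := by
    have h1 : 5 * c ≤ 6 * (c + f - a - b) := by linarith
    have habc : 0 < a * b * c := by positivity
    have h2 : (a * b * c) * (5 * c) ≤ (a * b * c) * (6 * (c + f - a - b)) :=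
      mul_le_mul_of_nonneg_left h1 habc.le
    have h3 : b * (2 * (W * P)) ≤ b * (c * (a * c + 1)) := mul_le_mul_of_nonneg_left hWP hb.le
    have h4 : b * c ≤ a * b * c := by nlinarith [mul_pos hb hc0]
    have h5 : a * b ≤ a * b * c := by nlinarith [mul_pos ha hb]
    have h6 : 12 * (a * b * c) ≤ a * b * c * c := by nlinarith
    nlinarith
  by_contra hcon
  push Not at hcon
  have hPQ : 0 < a * (P * Q) := by positivity
  have h1 := mul_le_mul_of_nonneg_left hcon hPQ.le
  have h2 : a * (P * Q) * ((2 * b * c + 1) * q - (2 * a * c + 1) * p) =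
      a * (2 * b * c + 1) * (b * (c + f - b) + 1) * P -
        (2 * a * c + 1) * (a * (c + f - a) + 1) * (a * Q) := by
    rw [← hpP, ← hqQ]; ring
  rw [h2] at h1
  have hSa : 0 < a * (c + f - a) + 1 := by nlinarith
  have h3 : (2 * a * c + 1) * (a * (c + f - a) + 1) * (a * Q) ≤
      (2 * a * c + 1) * (a * (c + f - a) + 1) * (b * P) :=
    mul_le_mul_of_nonneg_left hQP (by positivity)
  have h4 : a * (P * Q) * ((b - a) * W) ≤ (b - a) * W * P * (b * P) := by
    have h5 : 0 ≤ (b - a) * W * P := by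
      have : 0 < b - a := by linarith
      positivity
    calc a * (P * Q) * ((b - a) * W) = (b - a) * W * P * (a * Q) := by ring
      _ ≤ (b - a) * W * P * (b * P) := mul_le_mul_of_nonneg_left hQP h5
  have h6 : (P * (b - a)) * (2 * a * b * c * (c + f - a - b) - a * b - 1 - b * (W * P)) ≤ 0 := by
    have e : (P * (b - a)) * (2 * a * b * c * (c + f - a - b) - a * b - 1 - b * (W * P)) =
        a * (2 * b * c + 1) * (b * (c + f - b) + 1) * P -
        (2 * a * c + 1) * (a * (c + f - a) + 1) * (b * P) - (b - a) * W * P * (b * P) := by ring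
    rw [e]
    linarith
  have h7 : 0 < P * (b - a) := by
    have : 0 < b - a := by linarith
    positivity
  exact absurd (mul_pos h7 key) (not_lt.2 h6)

theorem sge : SgeStatement := by
  intro a b c d r s t g u v w x y z f W F1 F2 ε μ ν hC hN hT hf
  obtain ⟨hε, hW, hF1, hF2, hfc, hμ, hν, hz1, hz2⟩ := hT
  have ha : (0 : ℤ) < a := by exact_mod_cast hC.ha
  have hab : (a : ℤ) < b := by exact_mod_cast hC.hab
  have hb : (0 : ℤ) < b := ha.trans hab
  have hbc : (12 * b : ℤ) < c := by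
    have h1 := hN.c_gt
    have h2 := hN.hu
    have h3 := hN.hg
    have h4 := hN.ha
    have h5 : 3 ≤ a * g := by
      have : 0 < a * g := Nat.mul_pos h4 h3
      have h6 : 2 ≤ u := by
        by_contra h
        push Not at h
        interval_cases u <;> omega
      nlinarith
    have h7 : 12 * b ≤ 4 * (a * b * g) := by
      calc 12 * b = 4 * b * 3 := by ring
        _ ≤ 4 * b * (a * g) := Nat.mul_le_mul_left _ h5
        _ = 4 * (a * b * g) := by ring
    exact_mod_cast lt_of_le_of_lt h7 h1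
  have hc0 : (0 : ℤ) < c := by linarith
  have hs : (s : ℤ) * s = a * c + 1 := by exact_mod_cast hC.hs
  have ht : (t : ℤ) * t = b * c + 1 := by exact_mod_cast hC.ht
  have hW' : (W : ℤ) * W = c * f + 1 := by exact_mod_cast hW
  have hF1' : (F1 : ℤ) * F1 = a * f + 1 := by exact_mod_cast hF1
  have hF2' : (F2 : ℤ) * F2 = b * f + 1 := by exact_mod_cast hF2
  have hfc' : (4 * f : ℤ) < c := by exact_mod_cast hfc
  have hf' : (0 : ℤ) < f := by exact_mod_cast hf
  have posq : ∀ n : ℕ, ∀ k : ℕ, n * n = k + 1 → (0 : ℤ) < n := by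
    intro n k h
    have : n ≠ 0 := by rintro rfl; omega
    exact_mod_cast Nat.pos_of_ne_zero this
  have hs0 : (0 : ℤ) < s := posq _ _ hC.hs
  have ht0 : (0 : ℤ) < t := posq _ _ hC.ht
  have hW0 : (0 : ℤ) < W := posq _ _ hW
  have hF10 : (0 : ℤ) < F1 := posq _ _ hF1
  have hF20 : (0 : ℤ) < F2 := posq _ _ hF2
  have hst : (s : ℤ) ≤ t := by
    by_contra h
    push Not at h
    nlinarith
  have hFF : (F1 : ℤ) ≤ F2 := by
    by_contra h
    push Not at h
    nlinarith
  have hε2 : ε ^ 2 = 1 := by rcases hε with rfl | rfl <;> norm_num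
  have i1 := sqg_inv (a : ℤ) c s (ε * W) F1 hs (by
    linear_combination (a : ℤ) * W ^ 2 * hε2 + (a : ℤ) * hW' - c * hF1')
  have i2 := sqg_inv (b : ℤ) c t (ε * W) F2 ht (by
    linear_combination (b : ℤ) * W ^ 2 * hε2 + (b : ℤ) * hW' - c * hF2')
  have heq : (sqg (a : ℤ) c s (ε * W) F1 (2 * μ)).1 = (sqg (b : ℤ) c t (ε * W) F2 (2 * ν)).1 := by
    rw [hz1, hz2]
  have hcast : ∀ k n : ℕ, (4 * (a : ℤ) * c) ^ k * (a : ℤ) ^ n ≤ (b : ℤ) ^ n →
      (4 * a * c) ^ k * a ^ n ≤ b ^ n := by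
    intro k n h
    exact_mod_cast h
  rcases hε with rfl | rfl
  · have hx0 : (sqg (a : ℤ) c s (1 * W) F1 (2 * 0)) = ((W : ℤ), (F1 : ℤ)) := by simp [sqg]
    have hy0 : (sqg (b : ℤ) c t (1 * W) F2 (2 * 0)) = ((W : ℤ), (F2 : ℤ)) := by simp [sqg]
    obtain ⟨c1, c2, c3⟩ := core (a : ℤ) b c s t ha hab (by linarith) hs ht hs0 ht0
      (fun n => (sqg (a : ℤ) c s (1 * W) F1 (2 * n)).1)
      (fun n => (sqg (a : ℤ) c s (1 * W) F1 (2 * n)).2)
      (fun n => (sqg (b : ℤ) c t (1 * W) F2 (2 * n)).1)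
      (fun n => (sqg (b : ℤ) c t (1 * W) F2 (2 * n)).2)
      (fun n => dstep1 _ _ _ _ _ hs n) (fun n => dstep2 _ _ _ _ _ hs n)
      (fun n => dstep1 _ _ _ _ _ ht n) (fun n => dstep2 _ _ _ _ _ ht n)
      (fun n => i1 (2 * n)) (fun n => i2 (2 * n)) 0
      (by simp only [hx0]; exact hW0) (by simp only [hx0]; exact hF10)
      (by simp only [hy0]; exact hW0) (by simp only [hy0]; exact hF20)
      (by simp only [hx0, hy0]; simp) 1 (by norm_num) (by
        show (sqg (a : ℤ) c s (1 * W) F1 (2 * (0 + 1))).1 <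
          (sqg (b : ℤ) c t (1 * W) F2 (2 * (0 + 1))).1
        rw [dstep1 _ _ _ _ _ hs, dstep1 _ _ _ _ _ ht, hx0, hy0]
        show (2 * (a : ℤ) * c + 1) * W + 2 * c * s * F1 < (2 * b * c + 1) * W + 2 * c * t * F2
        have h1 : (s : ℤ) * F1 ≤ t * F2 := mul_le_mul hst hFF hF10.le ht0.le
        have h2 : (a : ℤ) * (c * W) < b * (c * W) := mul_lt_mul_of_pos_right hab (by positivity)
        nlinarith [mul_le_mul_of_nonneg_left h1 hc0.le])
      μ ν (Nat.zero_le _) (Nat.zero_le _) hν heq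
    have h1 := c2 hν
    exact ⟨h1.le, c1, fun h => absurd h h1.ne', hcast _ _ (c3 h1.le)⟩
  · obtain ⟨-, -, -, v1, x1, -⟩ := base1 (a : ℤ) c s f W F1 ha (by linarith) hs0 hf' hfc' hW0 hF10
      hs hW' hF1'
    obtain ⟨-, -, -, u1, y1, -⟩ := base1 (b : ℤ) c t f W F2 hb (by linarith) ht0 hf' hfc' hW0 hF20
      ht hW' hF2'
    obtain ⟨hup, -⟩ := base2 (a : ℤ) b c s t f W F1 F2 ha hab hbc hs0 ht0 hf' hfc' hW0 hF10 hF20
      hs ht hW' hF1' hF2'
    have hlow := base3 (a : ℤ) b c s t f W F1 F2 ha hab hbc hs0 ht0 hf' hfc' hW0 hF10 hF20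
      hs ht hW' hF1' hF2'
    have hV1 : (sqg (a : ℤ) c s (-1 * W) F1 (2 * 1)).1 =
        -((2 * (a : ℤ) * c + 1) * W) + 2 * c * s * F1 := by
      rw [show 2 * 1 = 2 * (0 + 1) by norm_num, dstep1 _ _ _ _ _ hs]
      simp only [sqg]; ring
    have hX1 : (sqg (a : ℤ) c s (-1 * W) F1 (2 * 1)).2 =
        (2 * (a : ℤ) * c + 1) * F1 - 2 * a * s * W := by
      rw [show 2 * 1 = 2 * (0 + 1) by norm_num, dstep2 _ _ _ _ _ hs]
      simp only [sqg]; ring
    have hU1 : (sqg (b : ℤ) c t (-1 * W) F2 (2 * 1)).1 =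
        -((2 * (b : ℤ) * c + 1) * W) + 2 * c * t * F2 := by
      rw [show 2 * 1 = 2 * (0 + 1) by norm_num, dstep1 _ _ _ _ _ ht]
      simp only [sqg]; ring
    have hY1 : (sqg (b : ℤ) c t (-1 * W) F2 (2 * 1)).2 =
        (2 * (b : ℤ) * c + 1) * F2 - 2 * b * t * W := by
      rw [show 2 * 1 = 2 * (0 + 1) by norm_num, dstep2 _ _ _ _ _ ht]
      simp only [sqg]; ring
    obtain ⟨c1, c2, c3⟩ := core (a : ℤ) b c s t ha hab (by linarith) hs ht hs0 ht0
      (fun n => (sqg (a : ℤ) c s (-1 * W) F1 (2 * n)).1)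
      (fun n => (sqg (a : ℤ) c s (-1 * W) F1 (2 * n)).2)
      (fun n => (sqg (b : ℤ) c t (-1 * W) F2 (2 * n)).1)
      (fun n => (sqg (b : ℤ) c t (-1 * W) F2 (2 * n)).2)
      (fun n => dstep1 _ _ _ _ _ hs n) (fun n => dstep2 _ _ _ _ _ hs n)
      (fun n => dstep1 _ _ _ _ _ ht n) (fun n => dstep2 _ _ _ _ _ ht n)
      (fun n => i1 (2 * n)) (fun n => i2 (2 * n)) 1
      (by simp only [hV1]; exact v1) (by simp only [hX1]; exact x1)
      (by simp only [hU1]; exact u1) (by simp only [hY1]; exact y1)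
      (by simp only [hU1, hV1, pow_one]; exact hup) 2 (by norm_num) (by
        show (sqg (a : ℤ) c s (-1 * W) F1 (2 * (1 + 1))).1 <
          (sqg (b : ℤ) c t (-1 * W) F2 (2 * (1 + 1))).1
        rw [dstep1 _ _ _ _ _ hs, dstep1 _ _ _ _ _ ht, hV1, hX1, hU1, hY1]
        have e1 : (2 * (a : ℤ) * c + 1) * (-((2 * (a : ℤ) * c + 1) * W) + 2 * c * s * F1) +
            2 * c * s * ((2 * (a : ℤ) * c + 1) * F1 - 2 * a * s * W) =
            4 * c * ((2 * a * c + 1) * (s * F1 - a * W) - a * W) - W := by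
          linear_combination (-4 * (a : ℤ) * c * W) * hs
        have e2 : (2 * (b : ℤ) * c + 1) * (-((2 * (b : ℤ) * c + 1) * W) + 2 * c * t * F2) +
            2 * c * t * ((2 * (b : ℤ) * c + 1) * F2 - 2 * b * t * W) =
            4 * c * ((2 * b * c + 1) * (t * F2 - b * W) - b * W) - W := by
          linear_combination (-4 * (b : ℤ) * c * W) * ht
        rw [e1, e2]
        have h1 : (2 * (a : ℤ) * c + 1) * (s * F1 - a * W) - a * W <
            (2 * b * c + 1) * (t * F2 - b * W) - b * W := by linarith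
        have h2 := mul_lt_mul_of_pos_left h1 (show (0 : ℤ) < 4 * c by positivity)
        linarith)
      μ ν hμ hν hν heq
    have hle : ν ≤ μ := by
      rcases Nat.lt_or_ge ν 2 with h | h
      · omega
      · exact (c2 h).le
    refine ⟨hle, c1, fun h => ⟨rfl, ?_⟩, hcast _ _ (c3 hle)⟩
    by_contra hne
    have := c2 (by omega)
    omega

end Pool.Agent.DIO.H7
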