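import Pool.Agent.Helper7_Dio.SGE

/-! DIO part F, module SGS: sizes, type `s`. -/

set_option autoImplicit false

namespace Pool.Agent.DIO.H7

open Real

lemma sgs_one {x y : ℝ} (hx : 1 ≤ x) (hy : 1 ≤ y) : 1 ≤ x * y := by nlinarith

lemma sgs_ab {a b c : ℝ} (ha : 1 ≤ a) (hab : a < b) (hbc : 12 * b < c) : a * b + 1 < c * b := by
  nlinarith

lemma sgs_log {l ρ : ℝ} (hl : 1 ≤ l) (hρ : 1 ≤ ρ) : l + (ρ - 1) ≤ ρ * l := by nlinarith

lemma sgs_log2 {l ρ : ℝ} (hl : 10 ≤ l) (hρ : 2 ≤ ρ) : l + (ρ - 1) ≤ (0.55 * ρ) * l := by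
  have h := mul_le_mul_of_nonneg_left hl (show (0 : ℝ) ≤ 0.55 * ρ - 1 by linarith)
  linarith

theorem sqg_real (a c s z0 x0 : ℤ) (A G : ℝ) (hA : A * A = a) (hG : G * G = c) (m : ℕ) :
    ((sqg a c s z0 x0 m).1 : ℝ) * A + ((sqg a c s z0 x0 m).2 : ℝ) * G =
      (z0 * A + x0 * G) * (s + A * G) ^ m := by
  induction m with
  | zero => simp [sqg]
  | succ m ih =>
    rw [pow_succ, ← mul_assoc, ← ih]
    simp only [sqg]
    push_cast
    linear_combination (-((sqg a c s z0 x0 m).1 : ℝ) * G) * hA -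
      (((sqg a c s z0 x0 m).2 : ℝ) * A) * hG

/-- Comparison of the logarithms. -/
theorem log_comp (a b : ℝ) (ha : 0 < a) (hab : a < b) (α β : ℝ) (hα : 1 < α) (hβ : 0 < β)
    (hβα : β ≤ √(b / a) * α) (p q : ℕ) (h : α ^ p < β ^ q) :
    (p : ℝ) * log α ≤ q * (log α + (√(b / a) - 1)) := by
  have hα0 : 0 < α := by linarith
  have h1 := Real.log_lt_log (pow_pos hα0 p) h
  rw [Real.log_pow, Real.log_pow] at h1
  have hρ : 0 < √(b / a) := Real.sqrt_pos.2 (div_pos (ha.trans hab) ha)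
  have h2 : log β ≤ log (√(b / a)) + log α := by
    rw [← Real.log_mul hρ.ne' hα0.ne']
    exact Real.log_le_log hβ hβα
  have h3 : log (√(b / a)) ≤ √(b / a) - 1 := Real.log_le_sub_one_of_pos hρ
  have h4 : (q : ℝ) * log β ≤ q * (log α + (√(b / a) - 1)) :=
    mul_le_mul_of_nonneg_left (by linarith) (Nat.cast_nonneg q)
  linarith

/-- The basic facts on the algebraic numbers. -/
theorem alg_facts (a b c s t : ℝ) (ha : 1 ≤ a) (hab : a < b) (hbc : b < c)
    (hs : s * s = a * c + 1) (ht : t * t = b * c + 1) (hs0 : 0 < s) (ht0 : 0 < t) :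
    √a * √c < s ∧ √b * √c < t ∧ t + √b * √c ≤ √(b / a) * (s + √a * √c) := by
  have ha0 : 0 < a := by linarith
  have hb0 : 0 < b := by linarith
  have hc0 : 0 < c := by linarith
  have hA := Real.mul_self_sqrt ha0.le
  have hB := Real.mul_self_sqrt hb0.le
  have hG := Real.mul_self_sqrt hc0.le
  have pA : 0 < √a := Real.sqrt_pos.2 ha0
  have pB : 0 < √b := Real.sqrt_pos.2 hb0
  have pG : 0 < √c := Real.sqrt_pos.2 hc0
  refine ⟨?_, ?_, ?_⟩
  · refine lt_of_pow_lt_pow_left₀ 2 hs0.le ?_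
    have : (√a * √c) ^ 2 = (√a * √a) * (√c * √c) := by ring
    rw [this, hA, hG, sq, hs]; linarith
  · refine lt_of_pow_lt_pow_left₀ 2 ht0.le ?_
    have : (√b * √c) ^ 2 = (√b * √b) * (√c * √c) := by ring
    rw [this, hB, hG, sq, ht]; linarith
  · rw [Real.sqrt_div hb0.le, div_mul_eq_mul_div, le_div_iff₀ pA]
    have h1 : √a * t ≤ √b * s := by
      refine (pow_le_pow_iff_left₀ (by positivity) (by positivity) two_ne_zero).1 ?_
      have e1 : (√a * t) ^ 2 = (√a * √a) * (t * t) := by ring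
      have e2 : (√b * s) ^ 2 = (√b * √b) * (s * s) := by ring
      rw [e1, e2, hA, hB, hs, ht]
      have e3 : a * (b * c + 1) = b * (a * c + 1) - (b - a) := by ring
      rw [e3]; linarith
    have e1 : (t + √b * √c) * √a = √a * t + √b * (√a * √c) := by ring
    have e2 : √b * (s + √a * √c) = √b * s + √b * (√a * √c) := by ring
    rw [e1, e2]
    linarith

theorem case_pos (a b c r s t : ℕ) (z x y : ℤ) (μ ν : ℕ) (ha : 0 < a) (hab : a < b)
    (hbc : 12 * b < c) (hr : r * r = a * b + 1) (hs : s * s = a * c + 1)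
    (ht : t * t = b * c + 1) (e1 : sqg a c s 1 1 (2 * μ + 1) = (z, x))
    (e2 : sqg b c t (1 * s) r (2 * ν) = (z, y)) :
    ((s : ℝ) + √(a : ℝ) * √(c : ℝ)) ^ (2 * μ) < ((t : ℝ) + √(b : ℝ) * √(c : ℝ)) ^ (2 * ν) := by
  have ha1 : (1 : ℝ) ≤ a := by exact_mod_cast ha
  have hab' : (a : ℝ) < b := by exact_mod_cast hab
  have hbc' : (12 * b : ℝ) < c := by exact_mod_cast hbc
  have hb0 : (0 : ℝ) < b := by linarith
  have hc0 : (0 : ℝ) < c := by linarith
  have hr' : (r : ℝ) * r = a * b + 1 := by exact_mod_cast hr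
  have hs' : (s : ℝ) * s = a * c + 1 := by exact_mod_cast hs
  have ht' : (t : ℝ) * t = b * c + 1 := by exact_mod_cast ht
  have hsZ : (s : ℤ) * s = a * c + 1 := by exact_mod_cast hs
  have htZ : (t : ℤ) * t = b * c + 1 := by exact_mod_cast ht
  have hrZ : (r : ℤ) * r = a * b + 1 := by exact_mod_cast hr
  have posq : ∀ n k : ℕ, n * n = k + 1 → (0 : ℝ) < n := by
    intro n k h
    have : n ≠ 0 := by rintro rfl; omega
    exact_mod_cast Nat.pos_of_ne_zero this
  have hr0 := posq _ _ hr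
  have hs0 := posq _ _ hs
  have ht0 := posq _ _ ht
  obtain ⟨g1, g2, -⟩ := alg_facts (a : ℝ) b c s t ha1 hab' (by linarith) hs' ht' hs0 ht0
  have hA := Real.mul_self_sqrt (show (0 : ℝ) ≤ a by linarith)
  have hB := Real.mul_self_sqrt hb0.le
  have hG := Real.mul_self_sqrt hc0.le
  have n1 := sqg_real a c s 1 1 (√(a : ℝ)) (√(c : ℝ)) (by exact_mod_cast hA) (by exact_mod_cast hG)
    (2 * μ + 1)
  have n2 := sqg_real b c t (1 * s) r (√(b : ℝ)) (√(c : ℝ)) (by exact_mod_cast hB)
    (by exact_mod_cast hG) (2 * ν)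
  rw [e1] at n1
  rw [e2] at n2
  have i1 := sqg_inv (a : ℤ) c s 1 1 hsZ (by ring) (2 * μ + 1)
  have i2 := sqg_inv (b : ℤ) c t (1 * s) r htZ (by linear_combination (b : ℤ) * hsZ - c * hrZ)
    (2 * ν)
  rw [e1] at i1
  rw [e2] at i2
  have i1' : (a : ℝ) * (z : ℝ) ^ 2 - c * (x : ℝ) ^ 2 = a - c := by exact_mod_cast i1
  have i2' : (b : ℝ) * (z : ℝ) ^ 2 - c * (y : ℝ) ^ 2 = b - c := by exact_mod_cast i2
  have pA : 1 ≤ √(a : ℝ) := Real.one_le_sqrt.2 ha1
  have pB : 0 < √(b : ℝ) := Real.sqrt_pos.2 hb0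
  have pG : 1 ≤ √(c : ℝ) := Real.one_le_sqrt.2 (by linarith)
  push_cast at n1 n2
  set A := √(a : ℝ)
  set B := √(b : ℝ)
  set G := √(c : ℝ)
  have pA0 : 0 < A := by linarith
  have pG0 : 0 < G := by linarith
  have hα : 2 * (A * G) ≤ (s : ℝ) + A * G := by linarith
  have hAG1 : 1 ≤ A * G := sgs_one pA pG
  rw [pow_succ] at n1
  set α := (s : ℝ) + A * G
  set β := (t : ℝ) + B * G
  have hα1 : 1 ≤ α := by linarith
  have hβ0 : 0 < β := by positivity
  set p := α ^ (2 * μ)
  set q := β ^ (2 * ν)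
  have hp : 1 ≤ p := one_le_pow₀ hα1
  have hp0 : 0 < p := by linarith
  have hq : 0 < q := pow_pos hβ0 _
  have hα0 : 0 < α := by linarith
  -- the first equation
  have hND : ((z : ℝ) * A + x * G) * (x * G - z * A) = c - a := by
    linear_combination (x : ℝ) ^ 2 * hG - (z : ℝ) ^ 2 * hA - i1'
  have hN : (z : ℝ) * A + x * G = (A + G) * (p * α) := by rw [n1]; ring
  have hN0 : 0 < (A + G) * (p * α) := by positivity
  have hD0 : 0 < (x : ℝ) * G - z * A := by
    rw [hN] at hND
    exact (mul_pos_iff_of_pos_left hN0).1 (by rw [hND]; linarith)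
  have hD : (x : ℝ) * G - z * A ≤ A * (p * α) := by
    have h1 : (G * (p * α)) * ((x : ℝ) * G - z * A) ≤ (G * (p * α)) * (A * (p * α)) := by
      have h2 : (G * (p * α)) * ((x : ℝ) * G - z * A) ≤ G * G := by
        rw [hG]
        calc (G * (p * α)) * ((x : ℝ) * G - z * A)
            ≤ ((A + G) * (p * α)) * ((x : ℝ) * G - z * A) :=
              mul_le_mul_of_nonneg_right (mul_le_mul_of_nonneg_right (by linarith)
                (mul_pos hp0 hα0).le) hD0.le
          _ = c - a := by rw [← hN]; exact hND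
          _ ≤ c := by linarith
      have h3 : G ≤ α := by
        have := le_mul_of_one_le_left pG0.le pA
        linarith
      have h4 : G ≤ p * α := h3.trans (le_mul_of_one_le_left hα0.le hp)
      have h5 : G * G ≤ (G * (p * α)) * (A * (p * α)) := by
        have h6 : G ≤ (p * α) * (A * (p * α)) := by
          have h7 : 1 ≤ A * (p * α) := by
            have : 1 ≤ p * α := by linarith
            exact sgs_one pA this
          exact h4.trans (le_mul_of_one_le_right (mul_pos hp0 hα0).le h7)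
        calc G * G ≤ G * ((p * α) * (A * (p * α))) := mul_le_mul_of_nonneg_left h6 pG0.le
          _ = (G * (p * α)) * (A * (p * α)) := by ring
      linarith
    exact le_of_mul_le_mul_left h1 (by positivity)
  have hz2 : G * (p * α) ≤ 2 * (z * A) := by
    have e : (A + G) * (p * α) = A * (p * α) + G * (p * α) := by ring
    linarith
  -- the second equation
  have hME : ((z : ℝ) * B + y * G) * (y * G - z * B) = c - b := by
    linear_combination (y : ℝ) ^ 2 * hG - (z : ℝ) ^ 2 * hB - i2'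
  have hM : (z : ℝ) * B + y * G = (s * B + r * G) * q := by rw [n2]; ring
  have hM0 : 0 < ((s : ℝ) * B + r * G) * q := by positivity
  have hE0 : 0 < (y : ℝ) * G - z * B := by
    rw [hM] at hME
    exact (mul_pos_iff_of_pos_left hM0).1 (by rw [hME]; linarith)
  have hsr : (s : ℝ) * B ≤ r * G := by
    refine (pow_le_pow_iff_left₀ (by positivity) (by positivity) two_ne_zero).1 ?_
    have h1 : ((s : ℝ) * B) ^ 2 = (s * s) * (B * B) := by ring
    have h2 : ((r : ℝ) * G) ^ 2 = (r * r) * (G * G) := by ring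
    rw [h1, h2, hs', hr', hB, hG]
    have e3 : ((a : ℝ) * c + 1) * b = (a * b + 1) * c - (c - b) := by ring
    rw [e3]; linarith
  have hzB : (z : ℝ) * B ≤ r * G * q := by
    have h1 : ((s : ℝ) * B + r * G) * q ≤ (2 * (r * G)) * q :=
      mul_le_mul_of_nonneg_right (by linarith) hq.le
    linarith
  -- conclusion
  have h4 : p * (G * B) ≤ r * q := by
    have h5 : (2 * A * G) * (p * (G * B)) ≤ (2 * A * G) * (r * q) := by
      calc (2 * A * G) * (p * (G * B)) = (G * (p * (2 * (A * G)))) * B := by ring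
        _ ≤ (G * (p * α)) * B :=
            mul_le_mul_of_nonneg_right (mul_le_mul_of_nonneg_left
              (mul_le_mul_of_nonneg_left hα hp0.le) pG0.le) pB.le
        _ ≤ (2 * (z * A)) * B := mul_le_mul_of_nonneg_right hz2 pB.le
        _ = (2 * A) * (z * B) := by ring
        _ ≤ (2 * A) * (r * G * q) := mul_le_mul_of_nonneg_left hzB (by positivity)
        _ = (2 * A * G) * (r * q) := by ring
    exact le_of_mul_le_mul_left h5 (by positivity)
  have h6 : (r : ℝ) < G * B := by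
    refine lt_of_pow_lt_pow_left₀ 2 (by positivity) ?_
    have h1 : (G * B) ^ 2 = (G * G) * (B * B) := by ring
    rw [h1, hG, hB, sq, hr']; exact sgs_ab ha1 hab' hbc'
  have h7 : (r : ℝ) * p < r * q := by
    calc (r : ℝ) * p < (G * B) * p := mul_lt_mul_of_pos_right h6 hp0
      _ = p * (G * B) := by ring
      _ ≤ r * q := h4
  exact lt_of_mul_lt_mul_left h7 hr0.le

theorem case_neg (a b c r s t : ℕ) (z x y : ℤ) (μ ν : ℕ) (ha : 0 < a) (hab : a < b)
    (hbc : 12 * b < c) (hr : r * r = a * b + 1) (hs : s * s = a * c + 1)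
    (ht : t * t = b * c + 1) (hz : 0 < z) (e1 : sqg a c s (-1) 1 (2 * μ + 1) = (z, x))
    (e2 : sqg b c t (-1 * s) r (2 * ν) = (z, y)) :
    ((s : ℝ) + √(a : ℝ) * √(c : ℝ)) ^ (2 * μ + 1) <
      ((t : ℝ) + √(b : ℝ) * √(c : ℝ)) ^ (2 * ν) := by
  have ha1 : (1 : ℝ) ≤ a := by exact_mod_cast ha
  have hab' : (a : ℝ) < b := by exact_mod_cast hab
  have hbc' : (12 * b : ℝ) < c := by exact_mod_cast hbc
  have hb0 : (0 : ℝ) < b := by linarith
  have hc0 : (0 : ℝ) < c := by linarith
  have hr' : (r : ℝ) * r = a * b + 1 := by exact_mod_cast hr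
  have hs' : (s : ℝ) * s = a * c + 1 := by exact_mod_cast hs
  have ht' : (t : ℝ) * t = b * c + 1 := by exact_mod_cast ht
  have hsZ : (s : ℤ) * s = a * c + 1 := by exact_mod_cast hs
  have htZ : (t : ℤ) * t = b * c + 1 := by exact_mod_cast ht
  have hrZ : (r : ℤ) * r = a * b + 1 := by exact_mod_cast hr
  have posq : ∀ n k : ℕ, n * n = k + 1 → (0 : ℝ) < n := by
    intro n k h
    have : n ≠ 0 := by rintro rfl; omega
    exact_mod_cast Nat.pos_of_ne_zero this
  have hr0 := posq _ _ hr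
  have hs0 := posq _ _ hs
  have ht0 := posq _ _ ht
  obtain ⟨g1, g2, -⟩ := alg_facts (a : ℝ) b c s t ha1 hab' (by linarith) hs' ht' hs0 ht0
  have hA := Real.mul_self_sqrt (show (0 : ℝ) ≤ a by linarith)
  have hB := Real.mul_self_sqrt hb0.le
  have hG := Real.mul_self_sqrt hc0.le
  have n1 := sqg_real a c s (-1) 1 (√(a : ℝ)) (√(c : ℝ)) (by exact_mod_cast hA)
    (by exact_mod_cast hG) (2 * μ + 1)
  have n2 := sqg_real b c t (-1 * s) r (√(b : ℝ)) (√(c : ℝ)) (by exact_mod_cast hB)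
    (by exact_mod_cast hG) (2 * ν)
  rw [e1] at n1
  rw [e2] at n2
  have i1 := sqg_inv (a : ℤ) c s (-1) 1 hsZ (by ring) (2 * μ + 1)
  have i2 := sqg_inv (b : ℤ) c t (-1 * s) r htZ (by linear_combination (b : ℤ) * hsZ - c * hrZ)
    (2 * ν)
  rw [e1] at i1
  rw [e2] at i2
  have i1' : (a : ℝ) * (z : ℝ) ^ 2 - c * (x : ℝ) ^ 2 = a - c := by exact_mod_cast i1
  have i2' : (b : ℝ) * (z : ℝ) ^ 2 - c * (y : ℝ) ^ 2 = b - c := by exact_mod_cast i2
  have hz' : (0 : ℝ) < z := by exact_mod_cast hz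
  have pA : 1 ≤ √(a : ℝ) := Real.one_le_sqrt.2 ha1
  have pB : 0 < √(b : ℝ) := Real.sqrt_pos.2 hb0
  have pG : 1 ≤ √(c : ℝ) := Real.one_le_sqrt.2 (by linarith)
  push_cast at n1 n2
  set A := √(a : ℝ)
  set B := √(b : ℝ)
  set G := √(c : ℝ)
  have pA0 : 0 < A := by linarith
  have pG0 : 0 < G := by linarith
  have hα : 2 * (A * G) ≤ (s : ℝ) + A * G := by linarith
  have hAG1 : 1 ≤ A * G := sgs_one pA pG
  have h3A : 3 * A ≤ G := by
    refine (pow_le_pow_iff_left₀ (by positivity) (by positivity) two_ne_zero).1 ?_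
    have h1 : (3 * A) ^ 2 = 9 * (A * A) := by ring
    rw [h1, hA, sq, hG]; linarith
  have hG24 : 12 * (b : ℝ) < G * G := by rw [hG]; exact hbc'
  set α := (s : ℝ) + A * G with hαdef
  set β := (t : ℝ) + B * G
  have hα6 : 6 ≤ α := by
    have h1 : (1 : ℝ) * 3 ≤ A * G := mul_le_mul pA (by linarith) (by norm_num) pA0.le
    linarith
  have hβ0 : 0 < β := by positivity
  set p := α ^ (2 * μ + 1) with hpdef
  set q := β ^ (2 * ν)
  have hp6 : 6 ≤ p := by
    have h1 : α ≤ p := by
      rw [hpdef, pow_succ]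
      exact le_mul_of_one_le_left (by linarith) (one_le_pow₀ (by linarith))
    linarith
  have hp0 : 0 < p := by linarith
  have hq : 0 < q := pow_pos hβ0 _
  -- the first equation
  have hND : ((z : ℝ) * A + x * G) * (x * G - z * A) = c - a := by
    linear_combination (x : ℝ) ^ 2 * hG - (z : ℝ) ^ 2 * hA - i1'
  have hN : (z : ℝ) * A + x * G = (G - A) * p := by rw [n1]; ring
  have hN0 : 0 < (G - A) * p := mul_pos (by linarith) hp0
  have hD0 : 0 < (x : ℝ) * G - z * A := by
    rw [hN] at hND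
    exact (mul_pos_iff_of_pos_left hN0).1 (by rw [hND]; linarith)
  have hD1 : ((x : ℝ) * G - z * A) * p ≤ 2 * G := by
    have h1 : G * (((x : ℝ) * G - z * A) * p) ≤ G * (2 * G) := by
      have h2 : (G / 2 * p) * ((x : ℝ) * G - z * A) ≤ c := by
        calc (G / 2 * p) * ((x : ℝ) * G - z * A) ≤ ((G - A) * p) * ((x : ℝ) * G - z * A) :=
              mul_le_mul_of_nonneg_right
                (mul_le_mul_of_nonneg_right (by linarith) hp0.le) hD0.le
          _ = c - a := by rw [← hN]; exact hND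
          _ ≤ c := by linarith
      rw [← hG] at h2
      have e : G * (((x : ℝ) * G - z * A) * p) = 2 * ((G / 2 * p) * ((x : ℝ) * G - z * A)) := by
        ring
      rw [e]
      linarith
    exact le_of_mul_le_mul_left h1 pG0
  have hz2 : G * p ≤ 4 * (z * A) := by
    -- `4 z A = 2 N - 2 D`
    have h1 : 2 * ((x : ℝ) * G - z * A) ≤ (G - 2 * A) * p := by
      have h2 : (2 * ((x : ℝ) * G - z * A)) * p ≤ ((G - 2 * A) * p) * p := by
        have h3 : G / 3 * (p * p) ≤ (G - 2 * A) * (p * p) :=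
          mul_le_mul_of_nonneg_right (by linarith) (by positivity)
        have h4 : 6 * 6 ≤ p * p := mul_le_mul hp6 hp6 (by norm_num) hp0.le
        have h5 : G / 3 * (6 * 6) ≤ G / 3 * (p * p) := mul_le_mul_of_nonneg_left h4 (by positivity)
        have e1 : (2 * ((x : ℝ) * G - z * A)) * p = 2 * (((x : ℝ) * G - z * A) * p) := by ring
        have e2 : ((G - 2 * A) * p) * p = (G - 2 * A) * (p * p) := by ring
        rw [e1, e2]
        linarith
      exact le_of_mul_le_mul_right h2 hp0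
    have e1 : (G - A) * p = G * p - A * p := by ring
    have e2 : (G - 2 * A) * p = G * p - 2 * (A * p) := by ring
    linarith
  -- the second equation
  have hME : ((z : ℝ) * B + y * G) * (y * G - z * B) = c - b := by
    linear_combination (y : ℝ) ^ 2 * hG - (z : ℝ) ^ 2 * hB - i2'
  have hM : (z : ℝ) * B + y * G = (r * G - s * B) * q := by rw [n2]; ring
  have hprod : ((r : ℝ) * G - s * B) * (r * G + s * B) = c - b := by
    linear_combination (r : ℝ) ^ 2 * hG - (s : ℝ) ^ 2 * hB + c * hr' - b * hs'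
  have hsum0 : 0 < (r : ℝ) * G + s * B := by positivity
  have hdif0 : 0 < (r : ℝ) * G - s * B := by
    exact (mul_pos_iff_of_pos_right hsum0).1 (by rw [hprod]; linarith)
  have hM0 : 0 < ((r : ℝ) * G - s * B) * q := by positivity
  have hE0 : 0 < (y : ℝ) * G - z * B := by
    rw [hM] at hME
    exact (mul_pos_iff_of_pos_left hM0).1 (by rw [hME]; linarith)
  have h2z : 2 * (z * B) ≤ ((r : ℝ) * G - s * B) * q := by linarith
  have h4z : 4 * (z * s * b) ≤ c * q := by
    calc 4 * ((z : ℝ) * s * b) = (2 * (z * B)) * (2 * (s * B)) := by rw [← hB]; ring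
      _ ≤ (2 * (z * B)) * (r * G + s * B) :=
          mul_le_mul_of_nonneg_left (by linarith) (by positivity)
      _ ≤ (((r : ℝ) * G - s * B) * q) * (r * G + s * B) :=
          mul_le_mul_of_nonneg_right h2z hsum0.le
      _ = (((r : ℝ) * G - s * B) * (r * G + s * B)) * q := by ring
      _ = (c - b) * q := by rw [hprod]
      _ ≤ c * q := mul_le_mul_of_nonneg_right (by linarith) hq.le
  -- conclusion
  have h5 : p * (s * b) ≤ (A * G) * q := by
    have h6 : G * (p * (s * b)) ≤ G * ((A * G) * q) := by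
      calc G * (p * (s * b)) = (G * p) * (s * b) := by ring
        _ ≤ (4 * (z * A)) * (s * b) := mul_le_mul_of_nonneg_right hz2 (by positivity)
        _ = A * (4 * (z * s * b)) := by ring
        _ ≤ A * (c * q) := mul_le_mul_of_nonneg_left h4z pA0.le
        _ = G * ((A * G) * q) := by rw [← hG]; ring
    exact le_of_mul_le_mul_left h6 pG0
  have hb1 : (1 : ℝ) ≤ b := by linarith
  have h7 : (A * G) * p < (A * G) * q := by
    calc (A * G) * p < s * p := mul_lt_mul_of_pos_right g1 hp0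
      _ ≤ (s * p) * b := le_mul_of_one_le_right (mul_pos hs0 hp0).le hb1
      _ = p * (s * b) := by ring
      _ ≤ (A * G) * q := h5
  exact lt_of_mul_lt_mul_left h7 (by positivity)

theorem sgs : SgsStatement := by
  intro a b c d r s t g u v w x y z ε μ ν hC hN hT hc9
  obtain ⟨hε, hν, hz1, hz2⟩ := hT
  have ha := hC.ha
  have hab := hC.hab
  have hbc : 12 * b < c := by
    have h1 := hN.c_gt
    have h2 := hN.hu
    have h3 := hN.hg
    have h4 := hN.ha
    have h5 : 3 ≤ a * g := by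
      have : 0 < a * g := Nat.mul_pos h4 h3
      have h6 : 2 ≤ u := by
        by_contra h
        push Not at h
        interval_cases u <;> omega
      have h7 := Nat.mul_le_mul h6 h6
      omega
    have h7 : 12 * b ≤ 4 * (a * b * g) := by
      calc 12 * b = 4 * b * 3 := by ring
        _ ≤ 4 * b * (a * g) := Nat.mul_le_mul_left _ h5
        _ = 4 * (a * b * g) := by ring
    exact lt_of_le_of_lt h7 h1
  have ha1 : (1 : ℝ) ≤ a := by exact_mod_cast ha
  have hab' : (a : ℝ) < b := by exact_mod_cast hab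
  have hbc' : (12 * b : ℝ) < c := by exact_mod_cast hbc
  have hb0 : (0 : ℝ) < b := by linarith
  have hc0 : (0 : ℝ) < c := by linarith
  have hs' : (s : ℝ) * s = a * c + 1 := by exact_mod_cast hC.hs
  have ht' : (t : ℝ) * t = b * c + 1 := by exact_mod_cast hC.ht
  have posq : ∀ n k : ℕ, n * n = k + 1 → (0 : ℝ) < n := by
    intro n k h
    have : n ≠ 0 := by rintro rfl; omega
    exact_mod_cast Nat.pos_of_ne_zero this
  have hs0 := posq _ _ hC.hs
  have ht0 := posq _ _ hC.ht
  obtain ⟨g1, g2, g3⟩ := alg_facts (a : ℝ) b c s t ha1 hab' (by linarith) hs' ht' hs0 ht0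
  have hA := Real.mul_self_sqrt (show (0 : ℝ) ≤ a by linarith)
  have hB := Real.mul_self_sqrt hb0.le
  have hG := Real.mul_self_sqrt hc0.le
  have pA : 1 ≤ √(a : ℝ) := Real.one_le_sqrt.2 ha1
  have pB : 0 < √(b : ℝ) := Real.sqrt_pos.2 hb0
  have pG : (31622 : ℝ) ≤ √(c : ℝ) := by
    refine Real.le_sqrt_of_sq_le ?_
    have : (10 ^ 9 : ℝ) ≤ c := by exact_mod_cast hc9
    linarith
  set α := (s : ℝ) + √(a : ℝ) * √(c : ℝ) with hα
  set β := (t : ℝ) + √(b : ℝ) * √(c : ℝ) with hβ
  have hα15 : (2 : ℝ) ^ 15 ≤ α := by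
    rw [hα]
    have h1 : (1 : ℝ) * 31622 ≤ √(a : ℝ) * √(c : ℝ) := mul_le_mul pA pG (by norm_num) (by linarith)
    norm_num
    linarith
  have hα0 : 0 < α := by linarith [show (0 : ℝ) < 2 ^ 15 by norm_num]
  have hα1 : 1 < α := by linarith [show (1 : ℝ) < 2 ^ 15 by norm_num]
  have hβ0 : 0 < β := by positivity
  have hlog : 10 ≤ log α := by
    have h1 : log ((2 : ℝ) ^ 15) ≤ log α := Real.log_le_log (by norm_num) hα15
    rw [Real.log_pow] at h1
    have h2 := Real.log_two_gt_d9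
    push_cast at h1
    linarith
  set ρ := √((b : ℝ) / a) with hρ
  have hρ1 : 1 ≤ ρ := by
    rw [hρ]
    refine Real.one_le_sqrt.2 ?_
    rw [one_le_div (by linarith)]; exact hab'.le
  have hρ2 : (a : ℝ) * (ρ * ρ) = b := by
    rw [hρ, Real.mul_self_sqrt (by positivity)]
    field_simp
  have hνR : (1 : ℝ) ≤ ν := by exact_mod_cast hν
  refine ⟨?_, ?_⟩
  · rintro rfl
    have hlt := case_pos a b c r s t z x y μ ν ha hab hbc hC.hr hC.hs hC.ht hz1 hz2
    rw [← hα, ← hβ] at hlt
    have hcomp := log_comp (a : ℝ) b (by linarith) hab' α β hα1 hβ0 g3 (2 * μ) (2 * ν) hlt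
    constructor
    · -- `β < α ^ 2`
      have h1 : β < α ^ 2 := by
        have h2 : β ≤ ρ * α := g3
        have h3 : ρ < α := by
          have h4 : ρ ^ 2 < α ^ 2 := by
            have h5 : ρ ^ 2 ≤ b := by
              rw [← hρ2, ← sq]
              exact le_mul_of_one_le_left (sq_nonneg ρ) ha1
            have h6 : (b : ℝ) < c := by linarith
            have h7 : (c : ℝ) ≤ α ^ 2 := by
              have h8 : √(c : ℝ) ≤ α := by
                rw [hα]
                have := le_mul_of_one_le_left (show 0 ≤ √(c : ℝ) by linarith) pA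
                linarith
              calc (c : ℝ) = √(c : ℝ) * √(c : ℝ) := hG.symm
                _ ≤ α * α := mul_le_mul h8 h8 (by positivity) hα0.le
                _ = α ^ 2 := by ring
            linarith
          exact lt_of_pow_lt_pow_left₀ 2 hα0.le h4
        calc β ≤ ρ * α := h2
          _ < α * α := mul_lt_mul_of_pos_right h3 hα0
          _ = α ^ 2 := by ring
      have h2 : α ^ (2 * μ) < α ^ (2 * (2 * ν)) := by
        calc α ^ (2 * μ) < β ^ (2 * ν) := hlt
          _ < (α ^ 2) ^ (2 * ν) := pow_lt_pow_left₀ h1 hβ0.le (by omega)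
          _ = α ^ (2 * (2 * ν)) := by rw [← pow_mul]
      have h3 := (pow_lt_pow_iff_right₀ hα1).1 h2
      omega
    · have h1 : (μ : ℝ) ≤ ν * ρ := by
        have h2 : ((2 * μ : ℕ) : ℝ) * log α ≤ ((2 * ν : ℕ) : ℝ) * (ρ * log α) := by
          exact hcomp.trans (mul_le_mul_of_nonneg_left (sgs_log (by linarith) hρ1)
            (Nat.cast_nonneg _))
        push_cast at h2
        have h3 : ((μ : ℝ)) * log α ≤ (ν * ρ) * log α := by
          have e1 : (2 * (ν : ℝ)) * (ρ * log α) = 2 * ((ν * ρ) * log α) := by ring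
          have e2 : (2 * (μ : ℝ)) * log α = 2 * (μ * log α) := by ring
          rw [e1, e2] at h2
          linarith
        exact le_of_mul_le_mul_right h3 (by linarith)
      have h2 : (μ : ℝ) * μ ≤ (ν * ρ) * (ν * ρ) := mul_self_le_mul_self (Nat.cast_nonneg _) h1
      have h3 : (a : ℝ) * (μ : ℝ) ^ 2 ≤ b * (ν : ℝ) ^ 2 := by
        calc (a : ℝ) * (μ : ℝ) ^ 2 = a * (μ * μ) := by ring
          _ ≤ a * ((ν * ρ) * (ν * ρ)) := mul_le_mul_of_nonneg_left h2 (by linarith)
          _ = (a * (ρ * ρ)) * (ν : ℝ) ^ 2 := by ring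
          _ = b * (ν : ℝ) ^ 2 := by rw [hρ2]
      exact_mod_cast h3
  · rintro rfl
    have hlt := case_neg a b c r s t z x y μ ν ha hab hbc hC.hr hC.hs hC.ht hC.hz hz1 hz2
    rw [← hα, ← hβ] at hlt
    have hcomp := log_comp (a : ℝ) b (by linarith) hab' α β hα1 hβ0 g3 (2 * μ + 1) (2 * ν) hlt
    push_cast at hcomp
    constructor
    · have h1 : (2 * μ + 1 : ℝ) ≤ 2 * (ν * ρ) := by
        have h2 : (2 * μ + 1 : ℝ) * log α ≤ (2 * (ν * ρ)) * log α := by
          have h3 : (2 * ν : ℝ) * (log α + (ρ - 1)) ≤ (2 * ν) * (ρ * log α) :=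
            mul_le_mul_of_nonneg_left (sgs_log (by linarith) hρ1) (by positivity)
          have e1 : (2 * (ν : ℝ)) * (ρ * log α) = (2 * (ν * ρ)) * log α := by ring
          rw [e1] at h3
          exact hcomp.trans h3
        exact le_of_mul_le_mul_right h2 (by linarith)
      have h2 : (2 * μ + 1 : ℝ) * (2 * μ + 1) ≤ (2 * (ν * ρ)) * (2 * (ν * ρ)) :=
        mul_self_le_mul_self (by positivity) h1
      have h3 : (a : ℝ) * (2 * μ + 1 : ℝ) ^ 2 ≤ 4 * (b * (ν : ℝ) ^ 2) := by
        calc (a : ℝ) * (2 * μ + 1 : ℝ) ^ 2 = a * ((2 * μ + 1) * (2 * μ + 1)) := by ring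
          _ ≤ a * ((2 * (ν * ρ)) * (2 * (ν * ρ))) := mul_le_mul_of_nonneg_left h2 (by linarith)
          _ = 4 * ((a * (ρ * ρ)) * (ν : ℝ) ^ 2) := by ring
          _ = 4 * (b * (ν : ℝ) ^ 2) := by rw [hρ2]
      exact_mod_cast h3
    · intro h4ab
      have hρ4 : 2 ≤ ρ := by
        rw [hρ]
        refine Real.le_sqrt_of_sq_le ?_
        rw [le_div_iff₀ (by linarith)]
        have : (4 * a : ℝ) ≤ b := by exact_mod_cast h4ab
        linarith
      have h1 : (2 * μ + 1 : ℝ) ≤ 2 * (ν * (0.55 * ρ)) := by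
        have h2 : (2 * μ + 1 : ℝ) * log α ≤ (2 * (ν * (0.55 * ρ))) * log α := by
          have h3 : (2 * ν : ℝ) * (log α + (ρ - 1)) ≤ (2 * ν) * ((0.55 * ρ) * log α) := by
            exact mul_le_mul_of_nonneg_left (sgs_log2 hlog hρ4) (by positivity)
          have e1 : (2 * (ν : ℝ)) * ((0.55 * ρ) * log α) = (2 * (ν * (0.55 * ρ))) * log α := by ring
          rw [e1] at h3
          exact hcomp.trans h3
        exact le_of_mul_le_mul_right h2 (by linarith)
      have h2 : (2 * μ + 1 : ℝ) * (2 * μ + 1) ≤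
          (2 * (ν * (0.55 * ρ))) * (2 * (ν * (0.55 * ρ))) :=
        mul_self_le_mul_self (by positivity) h1
      have h3 : 2 * ((a : ℝ) * (2 * μ + 1 : ℝ) ^ 2) ≤ 3 * (b * (ν : ℝ) ^ 2) := by
        calc 2 * ((a : ℝ) * (2 * μ + 1 : ℝ) ^ 2) = 2 * (a * ((2 * μ + 1) * (2 * μ + 1))) := by ring
          _ ≤ 2 * (a * ((2 * (ν * (0.55 * ρ))) * (2 * (ν * (0.55 * ρ))))) := by
              have := mul_le_mul_of_nonneg_left h2 (show (0 : ℝ) ≤ a by linarith)
              linarith
          _ = 2.42 * ((a * (ρ * ρ)) * (ν : ℝ) ^ 2) := by ring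
          _ = 2.42 * (b * (ν : ℝ) ^ 2) := by rw [hρ2]
          _ ≤ 3 * (b * (ν : ℝ) ^ 2) := mul_le_mul_of_nonneg_right (by norm_num) (by positivity)
      exact_mod_cast h3

end Pool.Agent.DIO.H7
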